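import Mathlib

/-! An explicit Denjoy type homeomorphism of the line (lift), described abstractly. -/

namespace Pool.Agent.R571.LB

open Filter Topology Set

structure Den (α : ℝ) (Pm Pp : ℝ → ℝ) : Prop where
  le : ∀ t, Pm t ≤ Pp t
  lt : ∀ a b, a < b → Pp a < Pm b
  perm : ∀ t, Pm (t + 1) = Pm t + 1 / 2
  perp : ∀ t, Pp (t + 1) = Pp t + 1 / 2
  lc : ∀ t, Tendsto Pm (𝓝[<] t) (𝓝 (Pm t))
  rc : ∀ t, Tendsto Pp (𝓝[>] t) (𝓝 (Pp t))
  gap : ∀ t, Pm t < Pp t ↔ Pm (t + α) < Pp (t + α)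
  zp : Pp 0 = 0
  zm : Pm 0 < 0
  ha0 : 0 < α
  ha1 : α < 1 / 2
  irr : Irrational α

/-- the monotone semiconjugacy -/
noncomputable def psi (Pm : ℝ → ℝ) (x : ℝ) : ℝ := sSup {t | Pm t ≤ x}

/-- the Denjoy map -/
noncomputable def DD (α : ℝ) (Pm Pp : ℝ → ℝ) (x : ℝ) : ℝ :=
  Pm (psi Pm x + α) + (x - Pm (psi Pm x)) *
    ((Pp (psi Pm x + α) - Pm (psi Pm x + α)) / (Pp (psi Pm x) - Pm (psi Pm x)))

variable {α : ℝ} {Pm Pp : ℝ → ℝ}

namespace Den

lemma monoP (h : Den α Pm Pp) : StrictMono Pp := fun a b hab => (h.lt a b hab).trans_le (h.le b)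
lemma monoM (h : Den α Pm Pp) : StrictMono Pm := fun a b hab => (h.le a).trans_lt (h.lt a b hab)

lemma perm_nat (h : Den α Pm Pp) (t : ℝ) (n : ℕ) : Pm (t + n) = Pm t + n / 2 := by
  induction n with
  | zero => simp
  | succ n ih =>
    push_cast
    rw [← add_assoc, h.perm, ih]
    ring

lemma perm_nat' (h : Den α Pm Pp) (t : ℝ) (n : ℕ) : Pm (t - n) = Pm t - n / 2 := by
  have := h.perm_nat (t - n) n
  rw [sub_add_cancel] at this
  linarith

lemma psi_spec (h : Den α Pm Pp) (x : ℝ) : Pm (psi Pm x) ≤ x ∧ x ≤ Pp (psi Pm x) := by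
  have hne : {t | Pm t ≤ x}.Nonempty := by
    obtain ⟨n, hn⟩ := exists_nat_gt (2 * (Pm 0 - x))
    refine ⟨0 - n, ?_⟩
    rw [mem_setOf_eq, h.perm_nat']
    linarith
  have hbdd : BddAbove {t | Pm t ≤ x} := by
    obtain ⟨n, hn⟩ := exists_nat_gt (2 * (x - Pm 0))
    refine ⟨0 + n, fun t ht => ?_⟩
    by_contra hcon
    push Not at hcon
    have h1 := h.monoM hcon
    rw [h.perm_nat] at h1
    have h2 : Pm t ≤ x := ht
    linarith
  constructor
  · refine le_of_tendsto (h.lc _) ?_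
    filter_upwards [self_mem_nhdsWithin] with t ht
    obtain ⟨a, ha, hta⟩ := exists_lt_of_lt_csSup hne (show t < sSup {t | Pm t ≤ x} from ht)
    exact (h.monoM hta).le.trans ha
  · refine ge_of_tendsto (h.rc _) ?_
    filter_upwards [self_mem_nhdsWithin] with t ht
    by_contra hcon
    push Not at hcon
    have h1 : t ≤ psi Pm x := le_csSup hbdd ((h.le t).trans hcon.le)
    exact absurd h1 (not_le.2 ht)

lemma uniq (h : Den α Pm Pp) {a b x : ℝ} (ha : Pm a ≤ x) (ha' : x ≤ Pp a) (hb : Pm b ≤ x)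
    (hb' : x ≤ Pp b) : a = b := by
  rcases lt_trichotomy a b with hlt | heq | hgt
  · have := h.lt a b hlt; linarith
  · exact heq
  · have := h.lt b a hgt; linarith

lemma psi_eq (h : Den α Pm Pp) {a x : ℝ} (ha : Pm a ≤ x) (ha' : x ≤ Pp a) : psi Pm x = a :=
  h.uniq (h.psi_spec x).1 (h.psi_spec x).2 ha ha'

lemma psi_Pm (h : Den α Pm Pp) (t : ℝ) : psi Pm (Pm t) = t := h.psi_eq le_rfl (h.le t)
lemma psi_Pp (h : Den α Pm Pp) (t : ℝ) : psi Pm (Pp t) = t := h.psi_eq (h.le t) le_rfl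

lemma gap_eq (h : Den α Pm Pp) (t : ℝ) : Pm t = Pp t ↔ Pm (t + α) = Pp (t + α) := by
  have h1 := h.gap t
  have h2 := h.le t
  have h3 := h.le (t + α)
  constructor
  · intro he
    by_contra hcon
    have := h1.2 (lt_of_le_of_ne h3 hcon)
    linarith
  · intro he
    by_contra hcon
    have := h1.1 (lt_of_le_of_ne h2 hcon)
    linarith

lemma DD_Pm (h : Den α Pm Pp) (t : ℝ) : DD α Pm Pp (Pm t) = Pm (t + α) := by
  unfold DD
  rw [h.psi_Pm, sub_self, zero_mul, add_zero]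

lemma DD_Pp (h : Den α Pm Pp) (t : ℝ) : DD α Pm Pp (Pp t) = Pp (t + α) := by
  unfold DD
  rw [h.psi_Pp]
  rcases (h.le t).lt_or_eq with h1 | h1
  · have : Pp t - Pm t ≠ 0 := by linarith
    field_simp
    ring
  · have h2 := (h.gap_eq t).1 h1
    rw [h1, h2]
    simp

lemma DD_mem (h : Den α Pm Pp) (x : ℝ) : Pm (psi Pm x + α) ≤ DD α Pm Pp x ∧
    DD α Pm Pp x ≤ Pp (psi Pm x + α) := by
  obtain ⟨h1, h2⟩ := h.psi_spec x
  have h3 := h.le (psi Pm x + α)
  unfold DD
  set a := psi Pm x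
  rcases (h.le a).lt_or_eq with h4 | h4
  · have hL : 0 < Pp a - Pm a := by linarith
    have h5 : 0 ≤ (x - Pm a) * ((Pp (a + α) - Pm (a + α)) / (Pp a - Pm a)) :=
      mul_nonneg (by linarith) (div_nonneg (by linarith) hL.le)
    refine ⟨by linarith, ?_⟩
    have h6 : (x - Pm a) * ((Pp (a + α) - Pm (a + α)) / (Pp a - Pm a)) ≤
        (Pp a - Pm a) * ((Pp (a + α) - Pm (a + α)) / (Pp a - Pm a)) :=
      mul_le_mul_of_nonneg_right (by linarith) (div_nonneg (by linarith) hL.le)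
    rw [mul_div_cancel₀ _ hL.ne'] at h6
    linarith
  · rw [h4, sub_self, div_zero, mul_zero, add_zero]
    exact ⟨le_rfl, h3⟩

lemma DD_mono (h : Den α Pm Pp) : StrictMono (DD α Pm Pp) := by
  intro x y hxy
  obtain ⟨h1, h2⟩ := h.psi_spec x
  obtain ⟨h3, h4⟩ := h.psi_spec y
  rcases lt_trichotomy (psi Pm x) (psi Pm y) with hlt | heq | hgt
  · exact (h.DD_mem x).2.trans_lt ((h.lt _ _ (by linarith)).trans_le (h.DD_mem y).1)
  · unfold DD
    rw [← heq] at h3 h4 ⊢
    set a := psi Pm x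
    have hL : 0 < Pp a - Pm a := by linarith
    have hL' : 0 < Pp (a + α) - Pm (a + α) := by
      have := (h.gap a).1 (by linarith)
      linarith
    have h5 := mul_lt_mul_of_pos_right (show x - Pm a < y - Pm a by linarith) (div_pos hL' hL)
    linarith
  · have := h.lt _ _ hgt
    linarith

lemma DD_surj (h : Den α Pm Pp) : Function.Surjective (DD α Pm Pp) := by
  intro y
  obtain ⟨h1, h2⟩ := h.psi_spec y
  set t := psi Pm y with ht
  have e : t - α + α = t := by ring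
  rcases (h.le (t - α)).lt_or_eq with h4 | h4
  · have h5 := (h.gap (t - α)).1 h4
    rw [e] at h5
    have hL : 0 < Pp (t - α) - Pm (t - α) := by linarith
    have hL' : 0 < Pp t - Pm t := by linarith
    refine ⟨Pm (t - α) + (y - Pm t) * ((Pp (t - α) - Pm (t - α)) / (Pp t - Pm t)), ?_⟩
    have hr : 0 ≤ (Pp (t - α) - Pm (t - α)) / (Pp t - Pm t) := (div_pos hL hL').le
    have hp : psi Pm (Pm (t - α) + (y - Pm t) * ((Pp (t - α) - Pm (t - α)) / (Pp t - Pm t))) =
        t - α := by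
      apply h.psi_eq
      · have := mul_nonneg (show 0 ≤ y - Pm t by linarith) hr
        linarith
      · have h6 := mul_le_mul_of_nonneg_right (show y - Pm t ≤ Pp t - Pm t by linarith) hr
        rw [mul_div_cancel₀ _ hL'.ne'] at h6
        linarith
    unfold DD
    rw [hp, e]
    field_simp
    ring
  · have h5 := (h.gap_eq (t - α)).1 h4
    rw [e] at h5
    refine ⟨Pm (t - α), ?_⟩
    rw [h.DD_Pm, e]
    linarith

lemma DD_cont (h : Den α Pm Pp) : Continuous (DD α Pm Pp) :=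
  h.DD_mono.monotone.continuous_of_surjective h.DD_surj

lemma DD_lt (h : Den α Pm Pp) (x : ℝ) : DD α Pm Pp x < x + 1 / 2 := by
  have h1 := (h.DD_mem x).2
  have h2 := h.lt (psi Pm x + α) (psi Pm x + 1) (by linarith [h.ha1])
  rw [h.perm] at h2
  have h3 := (h.psi_spec x).1
  linarith

/-- the closed invariant set -/
def G (Pm Pp : ℝ → ℝ) : Set ℝ := {x | ∃ t, x = Pm t ∨ x = Pp t}

lemma isClosed_G (h : Den α Pm Pp) : IsClosed (G Pm Pp) := by
  rw [← isOpen_compl_iff, isOpen_iff_mem_nhds]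
  intro x hx
  obtain ⟨h1, h2⟩ := h.psi_spec x
  have h3 : Pm (psi Pm x) < x := lt_of_le_of_ne h1 fun he => hx ⟨_, Or.inl he.symm⟩
  have h4 : x < Pp (psi Pm x) := lt_of_le_of_ne h2 fun he => hx ⟨_, Or.inr he⟩
  filter_upwards [Ioo_mem_nhds h3 h4] with y hy
  rintro ⟨t, ht⟩
  have h5 : t = psi Pm x := by
    apply h.uniq (x := y) _ _ hy.1.le hy.2.le
    · rcases ht with rfl | rfl
      · exact le_rfl
      · exact h.le t
    · rcases ht with rfl | rfl
      · exact h.le t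
      · exact le_rfl
  rcases ht with rfl | rfl
  · rw [h5] at hy; exact lt_irrefl _ hy.1
  · rw [h5] at hy; exact lt_irrefl _ hy.2

end Den

/-- irrational rotations: return from above -/
lemma rot {α : ℝ} (h : Irrational α) (t : ℝ) (N : ℕ) {δ : ℝ} (hδ : 0 < δ) :
    ∃ k : ℕ, N ≤ k ∧ ∃ m : ℤ, 0 < t + (k + 1) * α - m ∧ t + (k + 1) * α - m < δ := by
  obtain ⟨n, hn⟩ := exists_nat_one_div_lt hδ
  obtain ⟨k, hk0, -, hk⟩ := Real.exists_nat_abs_mul_sub_round_le α (Nat.succ_pos n)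
  set r : ℤ := round (k * α) with hr
  set η : ℝ := k * α - r with hη
  have hηδ : |η| < δ := by
    refine hk.trans_lt (lt_of_le_of_lt ?_ hn)
    push_cast
    apply one_div_le_one_div_of_le (by positivity)
    linarith
  have hη0 : η ≠ 0 := by
    intro h0
    have h1 : (k:ℝ) * α = r := by linarith
    have h2 : Irrational (k * α) := by
      have := h.natCast_mul hk0.ne'
      exact this
    exact h2.ne_int r h1
  set t₀ := t + (N + 1) * α with ht₀
  rcases lt_or_gt_of_ne hη0 with hneg | hpos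
  · rw [abs_of_neg hneg] at hηδ
    have hη' : 0 < -η := by linarith
    set m : ℤ := ⌈t₀⌉ - 1 with hm
    have hmt : (m:ℝ) < t₀ := by
      have := Int.ceil_lt_add_one t₀
      rw [hm]; push_cast; linarith
    have hq : 0 < (t₀ - m) / -η := div_pos (by linarith) hη'
    set i := ⌈(t₀ - m) / -η⌉₊ - 1 with hi
    have hi1 : 0 < ⌈(t₀ - m) / -η⌉₊ := Nat.ceil_pos.2 hq
    have hi2 : ((i:ℕ):ℝ) = ⌈(t₀ - m) / -η⌉₊ - 1 := by
      rw [hi, Nat.cast_sub hi1]; simp
    have hi3 : (i:ℝ) < (t₀ - m) / -η := by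
      rw [hi2]
      have := Nat.ceil_lt_add_one hq.le
      linarith
    have hi4 : (t₀ - m) / -η ≤ i + 1 := by
      rw [hi2]
      have := Nat.le_ceil ((t₀ - m) / -η)
      linarith
    rw [lt_div_iff₀ hη'] at hi3
    rw [div_le_iff₀ hη'] at hi4
    refine ⟨N + i * k, by omega, m + i * r, ?_⟩
    have e : t + (((N + i * k : ℕ) : ℝ) + 1) * α - ((m + i * r : ℤ) : ℝ) = t₀ - m + i * η := by
      rw [ht₀, hη]; push_cast; ring
    rw [e]
    constructor <;> nlinarith
  · rw [abs_of_pos hpos] at hηδ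
    set m : ℤ := ⌊t₀⌋ + 1 with hm
    have hmt : t₀ < m := by
      have := Int.lt_floor_add_one t₀
      rw [hm]; push_cast; linarith
    have hq : 0 < (m - t₀) / η := div_pos (by linarith) hpos
    set i := ⌊(m - t₀) / η⌋₊ + 1 with hi
    have hi3 : (m - t₀) / η < i := by
      rw [hi]; push_cast
      exact Nat.lt_floor_add_one _
    have hi4 : (i:ℝ) - 1 ≤ (m - t₀) / η := by
      rw [hi]; push_cast
      have := Nat.floor_le hq.le
      linarith
    rw [div_lt_iff₀ hpos] at hi3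
    rw [le_div_iff₀ hpos] at hi4
    refine ⟨N + i * k, by omega, m + i * r, ?_⟩
    have e : t + (((N + i * k : ℕ) : ℝ) + 1) * α - ((m + i * r : ℤ) : ℝ) = t₀ - m + i * η := by
      rw [ht₀, hη]; push_cast; ring
    rw [e]
    constructor <;> nlinarith

end Pool.Agent.R571.LB
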