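import Pool.Agent.R571.LB.Denjoy

/-! Existence of the Denjoy data. -/

namespace Pool.Agent.R571.LB

open Filter Topology Set

noncomputable def ll (k : ℤ) : ℝ := (1 / 2 : ℝ) ^ k.natAbs

lemma ll_pos (k : ℤ) : 0 < ll k := by unfold ll; positivity

lemma ll_summable : Summable ll := by
  apply Summable.of_nat_of_neg
  · simpa [ll] using summable_geometric_two
  · simpa [ll] using summable_geometric_two

noncomputable def sc : ℝ := 1 / (2 * (1 + ∑' k, ll k))

lemma sumll_nonneg : 0 ≤ ∑' k, ll k := tsum_nonneg fun k => (ll_pos k).le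

lemma sc_pos : 0 < sc := by
  have := sumll_nonneg
  unfold sc
  positivity

lemma sc_mul : sc * (1 + ∑' k, ll k) = 1 / 2 := by
  have := sumll_nonneg
  unfold sc
  field_simp

section

variable (α : ℝ)

/-- the counting terms -/
noncomputable def fp (t : ℝ) (k : ℤ) : ℤ := ⌊t - k * α⌋ - ⌊-(k * α)⌋
noncomputable def fm (t : ℝ) (k : ℤ) : ℤ := ⌈t - k * α⌉ - 1 - ⌊-(k * α)⌋

noncomputable def QP (t : ℝ) : ℝ := sc * (t + ∑' k : ℤ, ll k * fp α t k)
noncomputable def QM (t : ℝ) : ℝ := sc * (t + ∑' k : ℤ, ll k * fm α t k)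

lemma fp_abs (t : ℝ) (k : ℤ) : |(fp α t k : ℝ)| ≤ |t| + 1 := by
  unfold fp
  push_cast
  have h1 := Int.floor_le (t - k * α)
  have h2 := Int.lt_floor_add_one (t - k * α)
  have h3 := Int.floor_le (-(k * α))
  have h4 := Int.lt_floor_add_one (-(k * α))
  have h5 := le_abs_self t
  have h6 := neg_abs_le t
  rw [abs_le]
  constructor <;> linarith

lemma fm_abs (t : ℝ) (k : ℤ) : |(fm α t k : ℝ)| ≤ |t| + 1 := by
  unfold fm
  push_cast
  have h1 := Int.le_ceil (t - k * α)
  have h2 := Int.ceil_lt_add_one (t - k * α)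
  have h3 := Int.floor_le (-(k * α))
  have h4 := Int.lt_floor_add_one (-(k * α))
  have h5 := le_abs_self t
  have h6 := neg_abs_le t
  rw [abs_le]
  constructor <;> linarith

lemma sum_fp (t : ℝ) : Summable fun k : ℤ => ll k * fp α t k := by
  refine Summable.of_norm_bounded (g := fun k => ll k * (|t| + 1)) (ll_summable.mul_right _) ?_
  intro k
  rw [Real.norm_eq_abs, abs_mul, abs_of_pos (ll_pos k)]
  exact mul_le_mul_of_nonneg_left (fp_abs α t k) (ll_pos k).le

lemma sum_fm (t : ℝ) : Summable fun k : ℤ => ll k * fm α t k := by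
  refine Summable.of_norm_bounded (g := fun k => ll k * (|t| + 1)) (ll_summable.mul_right _) ?_
  intro k
  rw [Real.norm_eq_abs, abs_mul, abs_of_pos (ll_pos k)]
  exact mul_le_mul_of_nonneg_left (fm_abs α t k) (ll_pos k).le

lemma fm_le_fp (t : ℝ) (k : ℤ) : (fm α t k : ℝ) ≤ fp α t k := by
  have := Int.ceil_le_floor_add_one (t - k * α)
  have h : fm α t k ≤ fp α t k := by unfold fm fp; omega
  exact_mod_cast h

lemma Q_le (t : ℝ) : QM α t ≤ QP α t := by
  unfold QM QP
  apply mul_le_mul_of_nonneg_left _ sc_pos.le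
  have := (sum_fm α t).tsum_le_tsum (fun k =>
    mul_le_mul_of_nonneg_left (fm_le_fp α t k) (ll_pos k).le) (sum_fp α t)
  linarith

lemma Q_lt (a b : ℝ) (hab : a < b) : QP α a < QM α b := by
  unfold QM QP
  apply mul_lt_mul_of_pos_left _ sc_pos
  have := (sum_fp α a).tsum_le_tsum (g := fun k : ℤ => ll k * fm α b k) (fun k => by
    apply mul_le_mul_of_nonneg_left _ (ll_pos k).le
    have h1 : ⌊a - k * α⌋ < ⌈b - k * α⌉ := by
      have h2 := Int.floor_le (a - k * α)
      have h3 := Int.le_ceil (b - k * α)
      have h4 : ((⌊a - k * α⌋ : ℤ) : ℝ) < ((⌈b - k * α⌉ : ℤ) : ℝ) := by linarith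
      exact_mod_cast h4
    have h : fp α a k ≤ fm α b k := by unfold fm fp; omega
    exact_mod_cast h) (sum_fm α b)
  linarith

lemma QP_per (t : ℝ) : QP α (t + 1) = QP α t + 1 / 2 := by
  unfold QP
  have e : (fun k : ℤ => ll k * (fp α (t + 1) k : ℝ)) = fun k => ll k * fp α t k + ll k := by
    funext k
    have : fp α (t + 1) k = fp α t k + 1 := by
      unfold fp
      rw [show t + 1 - k * α = (t - k * α) + 1 by ring, Int.floor_add_one]
      ring
    rw [this]; push_cast; ring
  rw [e, (sum_fp α t).tsum_add ll_summable, ← sc_mul]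
  ring

lemma QM_per (t : ℝ) : QM α (t + 1) = QM α t + 1 / 2 := by
  unfold QM
  have e : (fun k : ℤ => ll k * (fm α (t + 1) k : ℝ)) = fun k => ll k * fm α t k + ll k := by
    funext k
    have : fm α (t + 1) k = fm α t k + 1 := by
      unfold fm
      rw [show t + 1 - k * α = (t - k * α) + 1 by ring, Int.ceil_add_one]
      ring
    rw [this]; push_cast; ring
  rw [e, (sum_fm α t).tsum_add ll_summable, ← sc_mul]
  ring

lemma QP_rc (t : ℝ) : Tendsto (QP α) (𝓝[>] t) (𝓝 (QP α t)) := by
  unfold QP
  apply Tendsto.const_mul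
  apply Tendsto.add
  · exact (continuous_id.tendsto t).mono_left nhdsWithin_le_nhds
  · apply tendsto_tsum_of_dominated_convergence (bound := fun k => ll k * (|t| + 2))
      (ll_summable.mul_right _)
    · intro k
      apply Tendsto.const_mul
      have h1 : Tendsto (fun s : ℝ => s - k * α) (𝓝[>] t) (𝓝[≥] (t - k * α)) := by
        apply tendsto_nhdsWithin_of_tendsto_nhds_of_eventually_within
        · exact ((continuous_id.sub continuous_const).tendsto t).mono_left nhdsWithin_le_nhds
        · filter_upwards [self_mem_nhdsWithin] with s hs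
          have : t < s := hs
          show t - k * α ≤ s - k * α
          linarith
      have h2 := (tendsto_floor_right_pure_floor (t - k * α)).comp h1
      have h3 : ∀ᶠ s in 𝓝[>] t, ⌊s - k * α⌋ = ⌊t - k * α⌋ := by
        have := h2.eventually (p := fun x => x = ⌊t - k * α⌋) (by simp)
        exact this
      apply tendsto_const_nhds.congr'
      filter_upwards [h3] with s hs
      unfold fp
      rw [hs]
    · have h1 : ∀ᶠ s in 𝓝[>] t, s < t + 1 :=
        nhdsWithin_le_nhds (eventually_lt_nhds (by linarith))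
      filter_upwards [self_mem_nhdsWithin, h1] with s hs hs1 k
      rw [Real.norm_eq_abs, abs_mul, abs_of_pos (ll_pos k)]
      apply mul_le_mul_of_nonneg_left _ (ll_pos k).le
      refine (fp_abs α s k).trans ?_
      have hs' : t < s := hs
      have : |s| ≤ |t| + 1 := by
        have h5 := le_abs_self t
        have h6 := neg_abs_le t
        rw [abs_le]
        constructor <;> linarith
      linarith

lemma QM_lc (t : ℝ) : Tendsto (QM α) (𝓝[<] t) (𝓝 (QM α t)) := by
  unfold QM
  apply Tendsto.const_mul
  apply Tendsto.add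
  · exact (continuous_id.tendsto t).mono_left nhdsWithin_le_nhds
  · apply tendsto_tsum_of_dominated_convergence (bound := fun k => ll k * (|t| + 2))
      (ll_summable.mul_right _)
    · intro k
      apply Tendsto.const_mul
      have h1 : Tendsto (fun s : ℝ => s - k * α) (𝓝[<] t) (𝓝[≤] (t - k * α)) := by
        apply tendsto_nhdsWithin_of_tendsto_nhds_of_eventually_within
        · exact ((continuous_id.sub continuous_const).tendsto t).mono_left nhdsWithin_le_nhds
        · filter_upwards [self_mem_nhdsWithin] with s hs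
          have : s < t := hs
          show s - k * α ≤ t - k * α
          linarith
      have h2 := (tendsto_ceil_left_pure_ceil (t - k * α)).comp h1
      have h3 : ∀ᶠ s in 𝓝[<] t, ⌈s - k * α⌉ = ⌈t - k * α⌉ := by
        have := h2.eventually (p := fun x => x = ⌈t - k * α⌉) (by simp)
        exact this
      apply tendsto_const_nhds.congr'
      filter_upwards [h3] with s hs
      unfold fm
      rw [hs]
    · have h1 : ∀ᶠ s in 𝓝[<] t, t - 1 < s :=
        nhdsWithin_le_nhds (eventually_gt_nhds (by linarith))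
      filter_upwards [self_mem_nhdsWithin, h1] with s hs hs1 k
      rw [Real.norm_eq_abs, abs_mul, abs_of_pos (ll_pos k)]
      apply mul_le_mul_of_nonneg_left _ (ll_pos k).le
      refine (fm_abs α s k).trans ?_
      have hs' : s < t := hs
      have : |s| ≤ |t| + 1 := by
        have h5 := le_abs_self t
        have h6 := neg_abs_le t
        rw [abs_le]
        constructor <;> linarith
      linarith

lemma gap_iff (t : ℝ) : QM α t < QP α t ↔ ∃ k : ℤ, ⌈t - k * α⌉ < ⌊t - k * α⌋ + 1 := by
  constructor
  · intro h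
    by_contra hcon
    push Not at hcon
    have : ∀ k : ℤ, fm α t k = fp α t k := by
      intro k
      have h1 := hcon k
      have h2 := Int.ceil_le_floor_add_one (t - k * α)
      unfold fm fp
      omega
    unfold QM QP at h
    simp only [this] at h
    exact lt_irrefl _ h
  · rintro ⟨k, hk⟩
    unfold QM QP
    apply mul_lt_mul_of_pos_left _ sc_pos
    have := (sum_fm α t).tsum_lt_tsum (g := fun k : ℤ => ll k * fp α t k) (i := k) (fun k =>
      mul_le_mul_of_nonneg_left (fm_le_fp α t k) (ll_pos k).le) (by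
        apply mul_lt_mul_of_pos_left _ (ll_pos k)
        have h : fm α t k < fp α t k := by unfold fm fp; omega
        exact_mod_cast h) (sum_fp α t)
    linarith

lemma QP_zero : QP α 0 = 0 := by
  unfold QP
  have : ∀ k : ℤ, fp α 0 k = 0 := by
    intro k; unfold fp; rw [zero_sub]; ring
  simp [this]

end

theorem exists_den : ∃ α Pm Pp, Den α Pm Pp := by
  have hirr : Irrational (√2 - 1) := by
    have := irrational_sqrt_two.sub_natCast 1
    simpa using this
  have h1 : (1.4:ℝ) < √2 := by
    rw [Real.lt_sqrt (by norm_num)]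
    norm_num
  have h2 : √2 < 1.5 := by
    rw [Real.sqrt_lt' (by norm_num)]
    norm_num
  refine ⟨√2 - 1, QM (√2 - 1), QP (√2 - 1), ?_⟩
  set α := √2 - 1
  refine ⟨Q_le α, Q_lt α, QM_per α, QP_per α, QM_lc α, QP_rc α, ?_, QP_zero α, ?_, ?_, ?_, hirr⟩
  · intro t
    rw [gap_iff, gap_iff]
    constructor
    · rintro ⟨k, hk⟩
      refine ⟨k + 1, ?_⟩
      have e : t + α - ((k + 1 : ℤ) : ℝ) * α = t - k * α := by push_cast; ring
      rw [e]; exact hk
    · rintro ⟨k, hk⟩
      refine ⟨k - 1, ?_⟩
      have e : t - ((k - 1 : ℤ) : ℝ) * α = t + α - k * α := by push_cast; ring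
      rw [e]; exact hk
  · have := (gap_iff α 0).2 ⟨0, by simp⟩
    rwa [QP_zero] at this
  · linarith
  · linarith

end Pool.Agent.R571.LB
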