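import Pool.Agent.R571.LB.Example

/-! The unimodal map. -/

namespace Pool.Agent.R571.LB

open Filter Topology Set

section

variable {α : ℝ} {Pm Pp : ℝ → ℝ}

/-- the right-hand auxiliary function -/
noncomputable def hh (α : ℝ) (Pm Pp : ℝ → ℝ) (z : ℝ) : ℝ :=
  max (DD α Pm Pp z - 1 / 2)
    (z - Pm 1 / (1 - Pm 1 + Pp (1 - α) - Pm 1) * max 0 (1 - Pm 1 + Pp (1 - α) - z))

/-- the left-hand auxiliary function -/
noncomputable def gg1 (α : ℝ) (Pm Pp : ℝ → ℝ) (x : ℝ) : ℝ :=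
  DD α Pm Pp x + 1 / 2 / (Pp (1 - α) - Pm (1 - α)) * max 0 (x - Pm (1 - α))

noncomputable def ff (α : ℝ) (Pm Pp : ℝ → ℝ) (x : ℝ) : ℝ :=
  min (gg1 α Pm Pp x) (hh α Pm Pp (Pp (1 - α) + 1 - x))

namespace Den

variable (h : Den α Pm Pp)
include h

lemma u_pos : 0 < Pm (1 - α) := by
  have := h.lt 0 (1 - α) (by linarith [h.ha1])
  rwa [h.zp] at this

lemma w_lt : Pm 1 < 1 / 2 := by
  have := h.perm 0
  rw [zero_add] at this
  linarith [h.zm]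

lemma P1 : Pp 1 = 1 / 2 := by
  have := h.perp 0
  rw [zero_add, h.zp] at this
  linarith

lemma u_lt_c : Pm (1 - α) < Pp (1 - α) := by
  rw [h.gap, sub_add_cancel, h.P1]
  exact h.w_lt

lemma c_lt_w : Pp (1 - α) < Pm 1 := h.lt _ _ (by linarith [h.ha0])

lemma D_c : DD α Pm Pp (Pp (1 - α)) = 1 / 2 := by
  rw [h.DD_Pp, sub_add_cancel, h.P1]

lemma D_u : DD α Pm Pp (Pm (1 - α)) = Pm 1 := by
  rw [h.DD_Pm, sub_add_cancel]

lemma D_0 : DD α Pm Pp 0 = Pp α := by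
  have := h.DD_Pp 0
  rwa [h.zp, zero_add] at this

lemma Pa_pos : 0 < Pp α := by
  have := h.monoP h.ha0
  rwa [h.zp] at this

lemma gap_a : Pm α < Pp α := by
  have := (h.gap 0).1 (by rw [h.zp]; exact h.zm)
  rwa [zero_add] at this

lemma D_w : DD α Pm Pp (Pm 1) = Pm α + 1 / 2 := by
  rw [h.DD_Pm, add_comm, h.perm]

lemma hh_mono : StrictMono (hh α Pm Pp) := by
  have h1 := h.w_lt
  have h2 := h.c_lt_w
  have h3 := h.u_lt_c
  have h4 := h.u_pos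
  intro x y hxy
  apply max_lt_max
  · have := h.DD_mono hxy
    linarith
  · have hk : 0 ≤ Pm 1 / (1 - Pm 1 + Pp (1 - α) - Pm 1) := div_nonneg (by linarith) (by linarith)
    have h5 : max 0 (1 - Pm 1 + Pp (1 - α) - y) ≤ max 0 (1 - Pm 1 + Pp (1 - α) - x) :=
      max_le_max le_rfl (by linarith)
    have h6 := mul_le_mul_of_nonneg_left h5 hk
    linarith

lemma hh_cont : Continuous (hh α Pm Pp) := by
  have := h.DD_cont
  unfold hh
  fun_prop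

lemma gg1_mono : StrictMono (gg1 α Pm Pp) := by
  have h3 := h.u_lt_c
  intro x y hxy
  have hk : 0 ≤ 1 / 2 / (Pp (1 - α) - Pm (1 - α)) := div_nonneg (by norm_num) (by linarith)
  have h5 : max 0 (x - Pm (1 - α)) ≤ max 0 (y - Pm (1 - α)) := max_le_max le_rfl (by linarith)
  have h6 := mul_le_mul_of_nonneg_left h5 hk
  have h7 := h.DD_mono hxy
  unfold gg1
  linarith

lemma gg1_cont : Continuous (gg1 α Pm Pp) := by
  have := h.DD_cont
  unfold gg1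
  fun_prop

lemma ff_cont : Continuous (ff α Pm Pp) := by
  have h1 := h.gg1_cont
  have h2 := h.hh_cont
  unfold ff
  exact h1.min (h2.comp (continuous_const.sub continuous_id))

lemma gg1_c : gg1 α Pm Pp (Pp (1 - α)) = 1 := by
  have h3 := h.u_lt_c
  unfold gg1
  rw [h.D_c, max_eq_right (by linarith), div_mul_cancel₀ _ (by linarith)]
  norm_num

lemma hh_high {z : ℝ} (hz : 1 - Pm 1 + Pp (1 - α) ≤ z) : hh α Pm Pp z = z := by
  unfold hh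
  rw [max_eq_left (by linarith : 1 - Pm 1 + Pp (1 - α) - z ≤ 0), mul_zero, sub_zero]
  have := h.DD_lt z
  rw [max_eq_right (by linarith)]

lemma hh_one : hh α Pm Pp 1 = 1 := h.hh_high (by linarith [h.c_lt_w])

lemma hh_low {z : ℝ} (hz1 : Pp (1 - α) ≤ z) (hz2 : z ≤ Pm 1) :
    hh α Pm Pp z = DD α Pm Pp z - 1 / 2 := by
  have h1 := h.w_lt
  have h2 := h.c_lt_w
  have h3 := h.u_lt_c
  have h4 := h.u_pos
  unfold hh
  rw [max_eq_right (by linarith : 0 ≤ 1 - Pm 1 + Pp (1 - α) - z)]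
  apply max_eq_left
  have h5 : 1 / 2 ≤ DD α Pm Pp z := by
    have := h.DD_mono.monotone hz1
    rwa [h.D_c] at this
  have hd : 0 < 1 - Pm 1 + Pp (1 - α) - Pm 1 := by linarith
  have h6 : Pm 1 ≤ Pm 1 / (1 - Pm 1 + Pp (1 - α) - Pm 1) * (1 - Pm 1 + Pp (1 - α) - z) := by
    rw [div_mul_eq_mul_div, le_div_iff₀ hd]
    exact mul_le_mul_of_nonneg_left (by linarith) (by linarith)
  linarith

lemma ff_left {x : ℝ} (hx : x ≤ Pp (1 - α)) : ff α Pm Pp x = gg1 α Pm Pp x := by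
  unfold ff
  apply min_eq_left
  have h1 := h.gg1_mono.monotone hx
  rw [h.gg1_c] at h1
  have h2 := h.hh_mono.monotone (show 1 ≤ Pp (1 - α) + 1 - x by linarith)
  rw [h.hh_one] at h2
  linarith

lemma ff_right {x : ℝ} (hx : Pp (1 - α) ≤ x) :
    ff α Pm Pp x = hh α Pm Pp (Pp (1 - α) + 1 - x) := by
  unfold ff
  apply min_eq_right
  have h1 := h.gg1_mono.monotone hx
  rw [h.gg1_c] at h1
  have h2 := h.hh_mono.monotone (show Pp (1 - α) + 1 - x ≤ 1 by linarith)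
  rw [h.hh_one] at h2
  linarith

lemma ff_c : ff α Pm Pp (Pp (1 - α)) = 1 := by
  rw [h.ff_left le_rfl, h.gg1_c]

lemma ff_low {x : ℝ} (hx : x ≤ Pm (1 - α)) : ff α Pm Pp x = DD α Pm Pp x := by
  have h3 := h.u_lt_c
  rw [h.ff_left (by linarith)]
  unfold gg1
  rw [max_eq_left (by linarith), mul_zero, add_zero]

lemma ff_mid {x : ℝ} (hx1 : Pp (1 - α) ≤ x) (hx2 : x ≤ Pm 1) :
    ff α Pm Pp x = Pp (1 - α) + 1 - x := by
  rw [h.ff_right hx1, h.hh_high (by linarith)]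

lemma ff_high {x : ℝ} (hx1 : Pp (1 - α) ≤ x) (hx2 : x ≤ Pm 1) :
    ff α Pm Pp (Pp (1 - α) + 1 - x) = DD α Pm Pp x - 1 / 2 := by
  have h1 := h.w_lt
  rw [h.ff_right (by linarith), show Pp (1 - α) + 1 - (Pp (1 - α) + 1 - x) = x by ring,
    h.hh_low hx1 hx2]

lemma c_pos : 0 < Pp (1 - α) := h.u_pos.trans h.u_lt_c

lemma ff_one : ff α Pm Pp 1 = 0 := by
  have := h.ff_high (x := Pp (1 - α)) le_rfl h.c_lt_w.le
  rw [h.D_c] at this
  rw [show Pp (1 - α) + 1 - Pp (1 - α) = 1 by ring] at this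
  rw [this]
  norm_num

lemma ff_zero : ff α Pm Pp 0 = Pp α := by
  rw [h.ff_low h.u_pos.le, h.D_0]

lemma ff_strictMonoOn : StrictMonoOn (ff α Pm Pp) (Icc 0 (Pp (1 - α))) := by
  intro x hx y hy hxy
  rw [h.ff_left hx.2, h.ff_left hy.2]
  exact h.gg1_mono hxy

lemma ff_strictAntiOn : StrictAntiOn (ff α Pm Pp) (Icc (Pp (1 - α)) 1) := by
  intro x hx y hy hxy
  rw [h.ff_right hx.1, h.ff_right hy.1]
  exact h.hh_mono (by linarith)

lemma ff_mapsTo : MapsTo (ff α Pm Pp) (Icc 0 1) (Icc 0 1) := by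
  have hc := h.c_pos
  have hc1 : Pp (1 - α) < 1 := by linarith [h.c_lt_w, h.w_lt]
  intro x hx
  rcases le_total x (Pp (1 - α)) with hxc | hxc
  · constructor
    · have := h.ff_strictMonoOn.monotoneOn ⟨le_rfl, hc.le⟩ ⟨hx.1, hxc⟩ hx.1
      rw [h.ff_zero] at this
      linarith [h.Pa_pos]
    · have := h.ff_strictMonoOn.monotoneOn ⟨hx.1, hxc⟩ ⟨hc.le, le_rfl⟩ hxc
      rwa [h.ff_c] at this
  · constructor
    · have := h.ff_strictAntiOn.antitoneOn ⟨hxc, hx.2⟩ ⟨hc1.le, le_rfl⟩ hx.2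
      rwa [h.ff_one] at this
    · have := h.ff_strictAntiOn.antitoneOn ⟨le_rfl, hc1.le⟩ ⟨hxc, hx.2⟩ hxc
      rwa [h.ff_c] at this

end Den

/-- the base of the tower -/
def Bs (Pm Pp : ℝ → ℝ) : Set ℝ := Den.G Pm Pp ∩ Icc 0 (Pm 1)

/-- the invariant Cantor set -/
def Lam (α : ℝ) (Pm Pp : ℝ → ℝ) : Set ℝ :=
  Bs Pm Pp ∪ {y | Pp (1 - α) + 1 - y ∈ Bs Pm Pp ∧ Pp (1 - α) ≤ Pp (1 - α) + 1 - y}

namespace Den

variable (h : Den α Pm Pp)
include h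

lemma isClosed_Bs : IsClosed (Bs Pm Pp) := h.isClosed_G.inter isClosed_Icc

lemma isClosed_Lam : IsClosed (Lam α Pm Pp) := by
  apply h.isClosed_Bs.union
  have hc : Continuous fun y : ℝ => Pp (1 - α) + 1 - y := by fun_prop
  have e : {y | Pp (1 - α) + 1 - y ∈ Bs Pm Pp ∧ Pp (1 - α) ≤ Pp (1 - α) + 1 - y} =
      (fun y : ℝ => Pp (1 - α) + 1 - y) ⁻¹' (Bs Pm Pp ∩ Ici (Pp (1 - α))) := by
    ext y; rfl
  rw [e]
  exact (h.isClosed_Bs.inter isClosed_Ici).preimage hc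

lemma base_dich {x : ℝ} (hx : x ∈ Bs Pm Pp) : x ≤ Pm (1 - α) ∨ Pp (1 - α) ≤ x := by
  obtain ⟨⟨t, ht⟩, -⟩ := hx
  have h1 : Pm t ≤ x ∧ x ≤ Pp t := by
    rcases ht with rfl | rfl
    · exact ⟨le_rfl, h.le t⟩
    · exact ⟨h.le t, le_rfl⟩
  rcases lt_trichotomy t (1 - α) with hlt | rfl | hgt
  · left
    exact h1.2.trans (h.lt _ _ hlt).le
  · rcases ht with rfl | rfl
    · left; exact le_rfl
    · right; exact le_rfl
  · right
    exact (h.lt _ _ hgt).le.trans h1.1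

lemma perm' (t : ℝ) : Pm (t - 1) = Pm t - 1 / 2 := by
  have := h.perm (t - 1)
  rw [sub_add_cancel] at this
  linarith

lemma perp' (t : ℝ) : Pp (t - 1) = Pp t - 1 / 2 := by
  have := h.perp (t - 1)
  rw [sub_add_cancel] at this
  linarith

lemma base1 {x : ℝ} (hx : x ∈ Bs Pm Pp) (hu : x ≤ Pm (1 - α)) :
    ff α Pm Pp x = DD α Pm Pp x ∧ DD α Pm Pp x ∈ Bs Pm Pp ∧ Pp α ≤ DD α Pm Pp x := by
  have h1 : Pp α ≤ DD α Pm Pp x := by
    have := h.DD_mono.monotone hx.2.1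
    rwa [h.D_0] at this
  refine ⟨h.ff_low hu, ⟨?_, ?_, ?_⟩, h1⟩
  · obtain ⟨⟨t, ht⟩, -⟩ := hx
    rcases ht with rfl | rfl
    · exact ⟨t + α, Or.inl (h.DD_Pm t)⟩
    · exact ⟨t + α, Or.inr (h.DD_Pp t)⟩
  · linarith [h.Pa_pos]
  · have := h.DD_mono.monotone hu
    rwa [h.D_u] at this

lemma base2 {x : ℝ} (hx : x ∈ Bs Pm Pp) (hc : Pp (1 - α) ≤ x) :
    ff α Pm Pp x = Pp (1 - α) + 1 - x ∧ ff α Pm Pp (Pp (1 - α) + 1 - x) = DD α Pm Pp x - 1 / 2 ∧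
      DD α Pm Pp x - 1 / 2 ∈ Bs Pm Pp ∧ DD α Pm Pp x - 1 / 2 ≤ Pm α := by
  have h1 : DD α Pm Pp x - 1 / 2 ≤ Pm α := by
    have := h.DD_mono.monotone hx.2.2
    rw [h.D_w] at this
    linarith
  refine ⟨h.ff_mid hc hx.2.2, h.ff_high hc hx.2.2, ⟨?_, ?_, ?_⟩, h1⟩
  · obtain ⟨⟨t, ht⟩, -⟩ := hx
    rcases ht with rfl | rfl
    · refine ⟨t + α - 1, Or.inl ?_⟩
      rw [h.perm', h.DD_Pm]
    · refine ⟨t + α - 1, Or.inr ?_⟩
      rw [h.perp', h.DD_Pp]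
  · have := h.DD_mono.monotone hc
    rw [h.D_c] at this
    linarith
  · have h2 := h.monoM (show α < 1 by linarith [h.ha1])
    linarith

lemma Lam_maps : MapsTo (ff α Pm Pp) (Lam α Pm Pp) (Lam α Pm Pp) := by
  rintro x (hx | ⟨hx, hc⟩)
  · rcases h.base_dich hx with hu | hc
    · obtain ⟨h1, h2, -⟩ := h.base1 hx hu
      rw [h1]
      exact Or.inl h2
    · obtain ⟨h1, h2, -⟩ := h.base2 hx hc
      rw [h1]
      right
      rw [mem_ofPred_eq, show Pp (1 - α) + 1 - (Pp (1 - α) + 1 - x) = x by ring]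
      exact ⟨hx, hc⟩
  · obtain ⟨-, h2, h3, -⟩ := h.base2 hx hc
    rw [show Pp (1 - α) + 1 - (Pp (1 - α) + 1 - x) = x by ring] at h2
    rw [h2]
    exact Or.inl h3

lemma Lam_sub : Lam α Pm Pp ⊆ Icc 0 1 := by
  have h1 := h.w_lt
  have h2 := h.c_pos
  rintro x (hx | ⟨hx, hc⟩)
  · exact ⟨hx.2.1, by linarith [hx.2.2]⟩
  · have := hx.2.2
    constructor <;> linarith

lemma Lam_inj : InjOn (ff α Pm Pp) (Lam α Pm Pp) := by
  have hc1 : Pp (1 - α) < 1 := by linarith [h.c_lt_w, h.w_lt]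
  have h1 := h.w_lt
  have hca := h.gap_a
  have hcw := h.c_lt_w
  -- three cases
  have key : ∀ x ∈ Lam α Pm Pp, (x ∈ Icc 0 (Pp (1 - α)) ∧ Pp α ≤ ff α Pm Pp x ∧
      ff α Pm Pp x ≤ Pm 1) ∨ (x ∈ Icc (Pp (1 - α)) 1 ∧
        (ff α Pm Pp x ≤ Pm α ∨ 1 - Pm 1 + Pp (1 - α) ≤ ff α Pm Pp x)) := by
    rintro x (hx | ⟨hx, hc⟩)
    · rcases h.base_dich hx with hu | hc
      · obtain ⟨h3, h4, h5⟩ := h.base1 hx hu
        left
        rw [h3]
        exact ⟨⟨hx.2.1, hu.trans h.u_lt_c.le⟩, h5, h4.2.2⟩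
      · obtain ⟨h3, -, -⟩ := h.base2 hx hc
        right
        rw [h3]
        exact ⟨⟨hc, by linarith [hx.2.2]⟩, Or.inr (by linarith [hx.2.2])⟩
    · obtain ⟨-, h2, h3, h4⟩ := h.base2 hx hc
      rw [show Pp (1 - α) + 1 - (Pp (1 - α) + 1 - x) = x by ring] at h2
      right
      rw [h2]
      exact ⟨⟨by linarith [hx.2.2], by linarith⟩, Or.inl h4⟩
  have hwB : Pm 1 < 1 - Pm 1 + Pp (1 - α) := by linarith [h.c_pos]
  intro x hx y hy hxy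
  rcases key x hx with ⟨hx1, hx2, hx3⟩ | ⟨hx1, hx2⟩
  · rcases key y hy with ⟨hy1, hy2, hy3⟩ | ⟨hy1, hy2⟩
    · exact h.ff_strictMonoOn.injOn hx1 hy1 hxy
    · exfalso
      rcases hy2 with hy2 | hy2 <;> linarith
  · rcases key y hy with ⟨hy1, hy2, hy3⟩ | ⟨hy1, hy2⟩
    · exfalso
      rcases hx2 with hx2 | hx2 <;> linarith
    · exact h.ff_strictAntiOn.injOn hx1 hy1 hxy

lemma c_mem : Pp (1 - α) ∈ Bs Pm Pp := ⟨⟨1 - α, Or.inr rfl⟩, h.c_pos.le, h.c_lt_w.le⟩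

end Den

/-- one of the two branches -/
structure Br (α : ℝ) (Pm Pp P : ℝ → ℝ) : Prop where
  hD : ∀ t, DD α Pm Pp (P t) = P (t + α)
  hper : ∀ t, P (t - 1) = P t - 1 / 2
  hm : ∀ t, Pm t ≤ P t
  hp : ∀ t, P t ≤ Pp t
  hG : ∀ t, P t ∈ Den.G Pm Pp

namespace Den

variable (h : Den α Pm Pp)
include h

lemma brP : Br α Pm Pp Pp := ⟨h.DD_Pp, h.perp', h.le, fun _ => le_rfl, fun t => ⟨t, Or.inr rfl⟩⟩
lemma brM : Br α Pm Pp Pm := ⟨h.DD_Pm, h.perm', fun _ => le_rfl, h.le, fun t => ⟨t, Or.inl rfl⟩⟩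

lemma step {P : ℝ → ℝ} (hP : Br α Pm Pp P) {t : ℝ} (ht : P t ∈ Bs Pm Pp) :
    (P t ≤ Pm (1 - α) ∧ ff α Pm Pp (P t) = P (t + α) ∧ P (t + α) ∈ Bs Pm Pp) ∨
    (Pp (1 - α) ≤ P t ∧ ff α Pm Pp (P t) = Pp (1 - α) + 1 - P t ∧
      ff α Pm Pp (ff α Pm Pp (P t)) = P (t + α - 1) ∧ P (t + α - 1) ∈ Bs Pm Pp) := by
  rcases h.base_dich ht with hu | hc
  · left
    obtain ⟨h1, h2, -⟩ := h.base1 ht hu
    rw [hP.hD] at h1 h2
    exact ⟨hu, h1, h2⟩
  · right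
    obtain ⟨h1, h2, h3, -⟩ := h.base2 ht hc
    rw [hP.hD, ← hP.hper] at h2 h3
    refine ⟨hc, h1, ?_, h3⟩
    rw [h1, h2]

lemma orbit {P : ℝ → ℝ} (hP : Br α Pm Pp P) {t : ℝ} (ht : P t ∈ Bs Pm Pp) (k : ℕ) :
    ∃ n : ℕ, k ≤ n ∧ ∃ p : ℤ, (ff α Pm Pp)^[n] (P t) = P (t + k * α - p) ∧
      P (t + k * α - p) ∈ Bs Pm Pp := by
  induction k with
  | zero => exact ⟨0, le_rfl, 0, by simp, by simpa using ht⟩
  | succ k ih =>
    obtain ⟨n, hn, p, h1, h2⟩ := ih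
    rcases h.step hP h2 with ⟨-, h3, h4⟩ | ⟨-, -, h3, h4⟩
    · have e : t + k * α - p + α = t + (k + 1 : ℕ) * α - p := by push_cast; ring
      rw [e] at h3 h4
      refine ⟨n + 1, by omega, p, ?_, h4⟩
      rw [Function.iterate_succ_apply', h1, h3]
    · have e : t + k * α - p + α - 1 = t + (k + 1 : ℕ) * α - (p + 1 : ℤ) := by push_cast; ring
      rw [e] at h3 h4
      refine ⟨n + 2, by omega, p + 1, ?_, h4⟩
      rw [Function.iterate_succ_apply', Function.iterate_succ_apply', h1, h3]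

lemma recur_base {P : ℝ → ℝ} (hP : Br α Pm Pp P) {t : ℝ} (ht : P t ∈ Bs Pm Pp) (N : ℕ) {ε : ℝ}
    (hε : 0 < ε) : ∃ n : ℕ, N ≤ n ∧ |(ff α Pm Pp)^[n] (P t) - Pp (1 - α)| < ε := by
  have hrc := h.rc (1 - α)
  have hev : ∀ᶠ s in 𝓝[>] (1 - α), Pp s < Pp (1 - α) + ε :=
    hrc.eventually (eventually_lt_nhds (by linarith))
  obtain ⟨b, hb1, hb2⟩ := (mem_nhdsGT_iff_exists_Ioc_subset).1 hev
  have hb1' : 1 - α < b := hb1
  have hbε : Pp b < Pp (1 - α) + ε := hb2 ⟨hb1, le_rfl⟩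
  obtain ⟨k, hk, m, hm1, hm2⟩ := rot h.irr t N
    (show 0 < min (b - (1 - α)) α from lt_min (by linarith) h.ha0)
  obtain ⟨n, hn, p, h1, h2⟩ := h.orbit hP ht k
  have ht0 : 0 ≤ t + k * α - p := by
    by_contra hcon
    push Not at hcon
    have h3 := h.lt _ _ hcon
    have h4 := hP.hp (t + k * α - p)
    have h5 := h2.2.1
    linarith [h.zm]
  have ht1 : t + k * α - p ≤ 1 := by
    by_contra hcon
    push Not at hcon
    have h3 := h.lt _ _ hcon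
    have h4 := hP.hm (t + k * α - p)
    have h5 := h2.2.2
    have h6 := h.w_lt
    rw [h.P1] at h3
    linarith
  have hm3 : t + (k + 1) * α - m < α := hm2.trans_le (min_le_right _ _)
  have hm4 : t + (k + 1) * α - m < b - (1 - α) := hm2.trans_le (min_le_left _ _)
  have hpm : p = m - 1 := by
    have h3 : ((p - (m - 1) : ℤ) : ℝ) < 1 := by
      push_cast
      nlinarith [h.ha1]
    have h4 : (-1:ℝ) < ((p - (m - 1) : ℤ) : ℝ) := by
      push_cast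
      nlinarith [h.ha1]
    have h5 : p - (m - 1) < 1 := by exact_mod_cast h3
    have h6 : -1 < p - (m - 1) := by exact_mod_cast h4
    omega
  have e : t + k * α - p = (1 - α) + (t + (k + 1) * α - m) := by
    rw [hpm]; push_cast; ring
  refine ⟨n, by omega, ?_⟩
  rw [h1]
  have h7 : 1 - α < t + k * α - p := by rw [e]; linarith
  have h8 : t + k * α - p < b := by rw [e]; linarith
  have h9 := h.lt _ _ h7
  have h10 := hP.hm (t + k * α - p)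
  have h11 := hP.hp (t + k * α - p)
  have h12 := h.monoP h8
  rw [abs_lt]
  constructor <;> linarith

lemma recur {y : ℝ} (hy : y ∈ Lam α Pm Pp) (N : ℕ) {ε : ℝ} (hε : 0 < ε) :
    ∃ n : ℕ, N ≤ n ∧ |(ff α Pm Pp)^[n] y - Pp (1 - α)| < ε := by
  have base : ∀ x ∈ Bs Pm Pp, ∃ n : ℕ, N ≤ n ∧ |(ff α Pm Pp)^[n] x - Pp (1 - α)| < ε := by
    intro x hx
    obtain ⟨⟨t, ht⟩, -⟩ := id hx
    rcases ht with rfl | rfl
    · exact h.recur_base h.brM hx N hε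
    · exact h.recur_base h.brP hx N hε
  rcases hy with hy | ⟨hy, hc⟩
  · exact base y hy
  · obtain ⟨-, h2, h3, -⟩ := h.base2 hy hc
    rw [show Pp (1 - α) + 1 - (Pp (1 - α) + 1 - y) = y by ring] at h2
    obtain ⟨n, hn, hn2⟩ := base _ h3
    refine ⟨n + 1, by omega, ?_⟩
    rw [Function.iterate_succ_apply, h2]
    exact hn2

end Den

end

end Pool.Agent.R571.LB
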